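import Pool.Agent.LGP.WFinal

/-!
# Finite mapping class group orbits on punctured surfaces of large genus

Let `S` be an oriented surface of genus `g` with `n + 1` punctures `x_0, ..., x_n`, and let `w` be
the winding number function modulo `k` of a `k`-spin structure on the closed surface.  Let `ρ` be a
representation of rank `r` of the fundamental group of `S` such that the eigenvalues of `ρ y` are
roots of unity, or at least the traces of the `ρ y` are finite in number, for the non-separating
simple closed curves `y` with winding number `0`.  If `4 r κ ≤ g + 1`, where `κ` is the codimension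
of an eigenspace of `ρ x_0` and `ρ` is irreducible, or where `κ = r`, then the character of `ρ` has a
finite orbit under the mapping class group.  There is no condition at the other punctures.  For
closed surfaces (`n = 0`, `ρ x_0 = 1`, `c = 0`) the bound is `4 r ^ 2 ≤ g + 1`.
-/

set_option autoImplicit false

namespace Pool.Agent.Results.MP_0707f5_ag.LinearGenus

open Matrix Helper12.Sc Helper12.Sc.SurfaceGroup SpQ

/-- the fundamental group of a closed oriented surface of genus `g` minus `n + 1` points
`x_0, ..., x_n`: the free group on `a_i`, `b_i` (`i < g`) and `x_1, ..., x_n` -/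
abbrev π (g n : ℕ) : Type := FreeGroup ((Fin g × Bool) ⊕ Fin n)

/-- the generators `a_i` -/
def a {g n : ℕ} (i : Fin g) : π g n := FreeGroup.of (Sum.inl (i, false))

/-- the generators `b_i` -/
def b {g n : ℕ} (i : Fin g) : π g n := FreeGroup.of (Sum.inl (i, true))

/-- the loops around the punctures `x_1, ..., x_n` -/
def x {g n : ℕ} (j : Fin n) : π g n := FreeGroup.of (Sum.inr j)

/-- the loop around the puncture `x_0`: `[a_1, b_1] ... [a_g, b_g] x_1 ... x_n x_0 = 1` -/
def x₀ (g n : ℕ) : π g n :=
  ((List.ofFn fun i : Fin g => a i * b i * (a i)⁻¹ * (b i)⁻¹).prod *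
    (List.ofFn fun j : Fin n => x j).prod)⁻¹

/-- the mapping classes which fix the puncture `x_0` and permute the others (Dehn, Nielsen, Baer):
the automorphisms of the fundamental group which preserve the conjugacy class of `x_0` and permute
those of `x_1, ..., x_n` -/
def MappingClass (g n : ℕ) : Set (MulAut (π g n)) :=
  {φ | IsConj (φ (x₀ g n)) (x₀ g n) ∧ ∀ j, ∃ j', IsConj (φ (x j)) (x j')}

/-- the non-separating simple closed curves, with any orientation and any base path -/
def IsNonseparatingSimple {g n : ℕ} (y : π g n) : Prop := ∃ φ ∈ MappingClass g n, ∃ i, y = φ (a i)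

/-- the map to the fundamental group of the closed surface -/
def fill (g n : ℕ) : π g n →* SurfaceGroup g :=
  FreeGroup.lift fun s => match s with
    | Sum.inl (i, false) => SurfaceGroup.a i
    | Sum.inl (i, true) => SurfaceGroup.b i
    | Sum.inr _ => 1

/-- all eigenvalues are roots of unity -/
def Quasi {r : ℕ} (h : GL (Fin r) ℂ) : Prop :=
  ∀ z : ℂ, (h : Matrix (Fin r) (Fin r) ℂ).charpoly.IsRoot z → ∃ m > 0, z ^ m = 1

/-- a subspace which is stable under the representation -/
def Stable {r : ℕ} {G : Type} [Group G] (ρ : G →* GL (Fin r) ℂ)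
    (W : Submodule ℂ (Fin r → ℂ)) : Prop :=
  ∀ y, ∀ v ∈ W, (ρ y : Matrix (Fin r) (Fin r) ℂ) *ᵥ v ∈ W

/-- irreducibility -/
def Irreducible {r : ℕ} {G : Type} [Group G] (ρ : G →* GL (Fin r) ℂ) : Prop :=
  ∀ W, Stable ρ W → W = ⊥ ∨ W = ⊤

theorem x₀_eq (g n : ℕ) : x₀ g n = LGP.x0 g n := by
  unfold x₀ LGP.x0 Helper12.Sc.comm LGP.stdL LGP.stdM
  rw [List.map_ofFn]
  rfl

theorem mc_eq (g n : ℕ) : MappingClass g n = LGP.MC g n := by
  unfold MappingClass LGP.MC
  rw [x₀_eq]
  rfl

theorem ns_iff {g n : ℕ} (y : π g n) : IsNonseparatingSimple y ↔ LGP.NS y := by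
  unfold IsNonseparatingSimple LGP.NS
  rw [mc_eq]
  rfl

theorem irr_iff {r : ℕ} {G : Type} [Group G] (ρ : G →* GL (Fin r) ℂ) :
    Irreducible ρ ↔ HZ.Irr ρ.range := by
  have h : ∀ W, Stable ρ W ↔ HZ.Stab ρ.range W := by
    intro W
    constructor
    · rintro h _ ⟨y, rfl⟩ v hv
      exact h y v hv
    · intro h y v hv
      exact h _ ⟨y, rfl⟩ v hv
  unfold Irreducible HZ.Irr
  exact forall_congr' fun W => by rw [h]

theorem result (g n k r : ℕ) (w : SurfaceGroup g → ZMod k) (hk : 0 < k)
    (hw : IsSpinStructure k w) (ρ : π g n →* GL (Fin r) ℂ) (c : ℂ) (hc : c = 0 ∨ Irreducible ρ)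
    (hne : (ρ (x₀ g n) : Matrix (Fin r) (Fin r) ℂ) ≠ c • 1)
    (hg : 4 * r * ((ρ (x₀ g n) : Matrix (Fin r) (Fin r) ℂ) - c • 1).rank ≤ g + 1)
    -- the non-separating simple closed curves with winding number `0`
    (hρ : (∀ y : π g n, IsNonseparatingSimple y → w (fill g n y) = 0 → Quasi (ρ y)) ∨
      {z : ℂ | ∃ y : π g n, (IsNonseparatingSimple y ∧ w (fill g n y) = 0) ∧
        z = (ρ y : Matrix (Fin r) (Fin r) ℂ).trace}.Finite) :
    {χ : π g n → ℂ | ∃ φ ∈ MappingClass g n,
      χ = fun y => (ρ (φ y) : Matrix (Fin r) (Fin r) ℂ).trace}.Finite := by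
  rw [irr_iff] at hc
  rw [x₀_eq] at hne hg
  simp only [ns_iff] at hρ
  rw [mc_eq]
  exact LGP.wmain_fin g n k r w ρ c hk hw hne hc hg hρ

end Pool.Agent.Results.MP_0707f5_ag.LinearGenus
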