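import Pool.Agent.SpQ.Spin
import Pool.Agent.SpQ.Orbit

/-!
# Finite mapping class group orbits from admissible simple loops

Let `w` be the winding number function modulo `k` of a `k`-spin structure on a closed oriented
surface of genus `g`, and let `ρ` be a representation of rank `r` of its fundamental group, where
`4 r ^ 2 < g`. If the eigenvalues of `ρ x` are roots of unity for all non-separating simple closed
curves `x` with `w x = 0`, then the character of `ρ` has a finite orbit under the mapping class
group.

For `k = 1` these are all non-separating simple closed curves.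
-/

namespace Pool.Agent.Results.MP_0707f5_ag.SpinSimpleLoops

open Helper12.Sc SpQ

theorem result (r k g : ℕ) (hk : 0 < k) (hg : 4 * r ^ 2 < g) (w : SurfaceGroup g → ZMod k)
    (hw : IsSpinStructure k w) (ρ : SurfaceGroup g →* GL (Fin r) ℂ)
    (hρ : ∀ x : SurfaceGroup g, x.IsNonseparatingSimple → w x = 0 → ∀ z : ℂ,
      (ρ x : Matrix (Fin r) (Fin r) ℂ).charpoly.IsRoot z → ∃ n : ℕ, 0 < n ∧ z ^ n = 1) :
    {χ : SurfaceGroup g → ℂ | ∃ φ : SurfaceGroup g ≃* SurfaceGroup g,
      IsOrientationPreserving φ ∧
        χ = fun x => (ρ (φ x) : Matrix (Fin r) (Fin r) ℂ).trace}.Finite :=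
  finite_orbit r hk hg hw ρ hρ

end Pool.Agent.Results.MP_0707f5_ag.SpinSimpleLoops
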